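import Pool.Agent.H.MP_d4d41d_nt.A

set_option autoImplicit false

namespace Pool.Agent.Results.MP_d4d41d_nt.Pos

open PowerSeries PowerSeries.WithPiTopology

/-- False theta function; the second sum runs over the negative indices `-(n + 1)`. -/
noncomputable def Psi (a b : ℤ⟦X⟧) : ℤ⟦X⟧ :=
  (∑' n : ℕ, a ^ (n + 1).choose 2 * b ^ n.choose 2) -
    ∑' n : ℕ, a ^ (n + 1).choose 2 * b ^ (n + 2).choose 2

/-- The Euler product. -/
noncomputable def euler : ℤ⟦X⟧ := ∏' n : ℕ, (1 - X ^ (n + 1))

noncomputable def b (n : ℕ) : ℤ := coeff n (euler * invOfUnit (Psi (-X ^ 2) X) 1)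

open Pool.Agent.H.MP_d4d41d_nt

def S (g : ℤ → ℤ) (z : ℤ) : ℤ := g z + g (z - 1) + g (z - 2) + g (z - 3) + g (z - 4)

theorem geo (g : ℤ → ℤ) (j : ℕ) : ∀ z : ℤ, (∀ w ≤ z, 0 ≤ g w ∧ g (w - 2) + g (w - 3) ≤ g w) →
    ∑ k ∈ Finset.range (5 * j), g (z - 5 - k) ≤ S g z ∧
      (0 < S g z → ∑ k ∈ Finset.range (5 * j), g (z - 5 - k) < S g z) := by
  have two : ∀ z : ℤ, (∀ w ≤ z, 0 ≤ g w ∧ g (w - 2) + g (w - 3) ≤ g w) →
      ∀ w ≤ z, 2 * g (w - 5) ≤ g w := by
    intro z h w hw
    have h1 := (h w hw).2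
    have h2 := (h (w - 2) (by omega)).2
    have h3 := (h (w - 3) (by omega)).2
    have h4 := (h (w - 2 - 2) (by omega)).1
    have h5 := (h (w - 3 - 3) (by omega)).1
    rw [show w - 2 - 3 = w - 5 by ring] at h2
    rw [show w - 3 - 2 = w - 5 by ring] at h3
    omega
  have pos : ∀ z : ℤ, (∀ w ≤ z, 0 ≤ g w ∧ g (w - 2) + g (w - 3) ≤ g w) → 0 ≤ S g z := by
    intro z h
    have := (h z le_rfl).1
    have := (h (z - 1) (by omega)).1
    have := (h (z - 2) (by omega)).1
    have := (h (z - 3) (by omega)).1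
    have := (h (z - 4) (by omega)).1
    unfold S; omega
  induction j with
  | zero => intro z h; simpa using pos z h
  | succ j ih =>
    intro z h
    have h' : ∀ w ≤ z - 5, 0 ≤ g w ∧ g (w - 2) + g (w - 3) ≤ g w := fun w hw => h w (by omega)
    obtain ⟨i1, i2⟩ := ih (z - 5) h'
    have e : ∑ k ∈ Finset.range (5 * (j + 1)), g (z - 5 - k) =
        S g (z - 5) + ∑ k ∈ Finset.range (5 * j), g (z - 5 - 5 - k) := by
      rw [show 5 * (j + 1) = 5 + 5 * j by ring, Finset.sum_range_add]
      congr 1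
      · simp [Finset.sum_range_succ, S]
      · exact Finset.sum_congr rfl fun k _ => by congr 1; push_cast; ring
    have t : 2 * S g (z - 5) ≤ S g z := by
      have a0 := two z h z le_rfl
      have a1 := two z h (z - 1) (by omega)
      have a2 := two z h (z - 2) (by omega)
      have a3 := two z h (z - 3) (by omega)
      have a4 := two z h (z - 4) (by omega)
      unfold S
      rw [show z - 5 - 1 = z - 1 - 5 by ring, show z - 5 - 2 = z - 2 - 5 by ring,
        show z - 5 - 3 = z - 3 - 5 by ring, show z - 5 - 4 = z - 4 - 5 by ring]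
      omega
    have p := pos (z - 5) h'
    rw [e]
    omega

theorem conv (c : ℕ → ℤ) (E : ℤ⟦X⟧) (N : ℕ) :
    coeff N (PowerSeries.mk c * E) = ∑ k ∈ Finset.range (12 + 5 * N),
      c k * (if (N : ℤ) - k < 0 then 0 else coeff ((N : ℤ) - k).toNat E) := by
  rw [coeff_mul, Finset.Nat.sum_antidiagonal_eq_sum_range_succ_mk]
  refine Finset.sum_subset_zero_on_sdiff (Finset.range_subset_range.2 (by omega))
    (fun k hk => ?_) fun k hk => ?_
  · simp only [Finset.mem_sdiff, Finset.mem_range] at hk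
    rw [if_pos (by omega), mul_zero]
  · rw [Finset.mem_range] at hk
    rw [if_neg (by omega), coeff_mk, show ((N : ℤ) - k).toNat = N - k by omega]

theorem tail (c : ℕ → ℤ) (B : ℤ) (hc : ∀ k, |c k| ≤ B) (g : ℤ → ℤ) (z : ℤ) (j : ℕ)
    (h : ∀ w ≤ z, 0 ≤ g w) : |∑ k ∈ Finset.range j, c k * g (z - k)| ≤
      B * ∑ k ∈ Finset.range j, g (z - k) := by
  rw [Finset.mul_sum]
  refine (Finset.abs_sum_le_sum_abs _ _).trans (Finset.sum_le_sum fun k _ => ?_)
  rw [abs_mul, abs_of_nonneg (h _ (by omega))]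
  exact mul_le_mul_of_nonneg_right (hc k) (h _ (by omega))

theorem result : ∀ n : ℕ, 7 ≤ n → 0 < b n := by
  have hP : Psi (-X ^ 2) X = (1 - X) * PowerSeries.mk (A 2 eps) := psi_eq (by norm_num)
  have v : ∀ (ε : ℕ → ℤ) (k : ℕ), k < 12 → A 2 ε k =
      if k = 0 then ε 0 else if 2 ≤ k ∧ k < 5 then ε 1 else if 7 ≤ k then ε 2 else 0 := by
    intro ε k hk
    have a0 := A_eq (a := 2) (by norm_num) ε 0 k
    have a1 := A_eq (a := 2) (by norm_num) ε 1 k
    have a2 := A_eq (a := 2) (by norm_num) ε 2 k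
    simp only [s, Nat.choose] at a0 a1 a2
    interval_cases k <;> simp_all
  have hu : Psi (-X ^ 2) X * invOfUnit (Psi (-X ^ 2) X) 1 = 1 := mul_invOfUnit _ _ (by
    rw [hP, ← coeff_zero_eq_constantCoeff_apply]; simp [v, eps])
  set E := (1 - X) * invOfUnit (Psi (-X ^ 2) X) 1 with hE
  have hAE : PowerSeries.mk (A 2 eps) * E = 1 := by rw [← hu, hE]; nth_rw 2 [hP]; ring
  let g : ℤ → ℤ := fun z => if z < 0 then 0 else coeff z.toNat E
  have gneg : ∀ z, z < 0 → g z = 0 := fun z hz => if_pos hz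
  have he : ∀ n, |eps n| ≤ 1 := fun n => by simp [eps]
  have split : ∀ (c : ℕ → ℤ) (N : ℕ), coeff N (PowerSeries.mk c * E) =
      ∑ k ∈ Finset.range 12, c k * g (N - k) +
        ∑ k ∈ Finset.range (5 * N), c (12 + k) * g (N - 7 - 5 - k) := by
    intro c N
    rw [conv, Finset.sum_range_add]
    congr 1
    refine Finset.sum_congr rfl fun k _ => ?_
    rw [show (N : ℤ) - 7 - 5 - k = N - (12 + k : ℕ) by push_cast; ring]
  have g0 : g 0 = 1 := by
    have := split (A 2 eps) 0
    rw [hAE] at this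
    simpa [Finset.sum_range_succ, v, eps, gneg] using this.symm
  have key : ∀ N : ℕ, ∀ w ≤ (N : ℤ), 0 ≤ g w ∧ g (w - 2) + g (w - 3) ≤ g w := by
    intro N
    induction N with
    | zero =>
      intro w hw
      rw [gneg (w - 2) (by omega), gneg (w - 3) (by omega)]
      rcases hw.eq_or_lt with rfl | h
      · simp [g0]
      · simp [gneg w h]
    | succ N ih =>
      intro w hw
      rcases hw.eq_or_lt with rfl | h
      · have h1 := split (A 2 eps) (N + 1)
        rw [hAE, coeff_one, if_neg (by omega)] at h1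
        have h2 := tail (fun k => A 2 eps (12 + k)) 1 (fun k => A_abs _ _ he _) g
          ((N + 1 : ℕ) - 7 - 5) (5 * (N + 1)) (fun w hw => (ih w (by omega)).1)
        have h3 := (geo g (N + 1) ((N + 1 : ℕ) - 7) (fun w hw => ih w (by omega))).1
        have h4 := (ih ((N + 1 : ℕ) - 2) (by omega)).1
        have h5 := (ih ((N + 1 : ℕ) - 3) (by omega)).1
        have h6 := (ih ((N + 1 : ℕ) - 4) (by omega)).1
        have h7 := abs_le.1 h2
        simp only [Finset.sum_range_succ _ 11, Finset.sum_range_succ _ 10, Finset.sum_range_succ _ 9,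
          Finset.sum_range_succ _ 8, Finset.sum_range_succ _ 7, Finset.sum_range_succ _ 6,
          Finset.sum_range_succ _ 5, Finset.sum_range_succ _ 4, Finset.sum_range_succ _ 3,
          Finset.sum_range_succ _ 2, Finset.sum_range_succ _ 1, Finset.sum_range_one] at h1
        simp only [S, sub_sub] at h1 h3 h7
        norm_num [v, eps, Nat.choose] at h1 h3 h4 h5 h6 h7 ⊢
        omega
      · exact ih w (by omega)
  have ev : ∀ m : ℕ, 0 < g (2 * m) := by
    intro m
    induction m with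
    | zero => simp [g0]
    | succ m ih =>
      have h1 := (key (2 * (m + 1)) _ le_rfl).2
      have h2 := (key (2 * (m + 1)) ((2 * (m + 1) : ℕ) - 3) (by omega)).1
      rw [show ((2 * (m + 1) : ℕ) : ℤ) - 2 = 2 * m by push_cast; ring] at h1
      push_cast at h1 h2 ⊢
      omega
  intro n hn
  have hb : euler * invOfUnit (Psi (-X ^ 2) X) 1 =
      1 + PowerSeries.mk (fun k => A 2 (fun n => (-1) ^ n) k - A 2 eps k) * E := by
    have : PowerSeries.mk (fun k => A 2 (fun n => (-1) ^ n) k - A 2 eps k) =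
        PowerSeries.mk (A 2 fun n => (-1) ^ n) - PowerSeries.mk (A 2 eps) := by ext k; simp
    rw [this, sub_mul, hAE, euler, euler_eq, hE]; ring
  have h2 := tail (fun k => A 2 (fun n => (-1) ^ n) (12 + k) - A 2 eps (12 + k)) 2 (fun k => by
    have h1 := abs_le.1 (A_abs 2 (fun n => (-1) ^ n) (fun n => by simp) (12 + k))
    have h2 := abs_le.1 (A_abs 2 eps he (12 + k))
    exact abs_le.2 (by omega)) g ((n : ℤ) - 7 - 5) (5 * n) (fun w hw => (key n w (by omega)).1)
  have hS : 0 < S g (n - 7) := by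
    have a0 := (key n (n - 7) (by omega)).1
    have a1 := (key n (n - 7 - 1) (by omega)).1
    have a2 := (key n (n - 7 - 2) (by omega)).1
    have a3 := (key n (n - 7 - 3) (by omega)).1
    have a4 := (key n (n - 7 - 4) (by omega)).1
    unfold S
    rcases Nat.even_or_odd' (n - 7) with ⟨m, hm | hm⟩
    · have := ev m
      rw [show (2 * m : ℤ) = n - 7 by omega] at this; omega
    · have := ev m
      rw [show (2 * m : ℤ) = n - 7 - 1 by omega] at this; omega
  have h3 := (geo g n (n - 7) (fun w hw => key n w (by omega))).2 hS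
  have h7 := abs_le.1 h2
  rw [b, hb, map_add, coeff_one, if_neg (by omega), split]
  simp only [Finset.sum_range_succ _ 11, Finset.sum_range_succ _ 10, Finset.sum_range_succ _ 9,
    Finset.sum_range_succ _ 8, Finset.sum_range_succ _ 7, Finset.sum_range_succ _ 6,
    Finset.sum_range_succ _ 5, Finset.sum_range_succ _ 4, Finset.sum_range_succ _ 3,
    Finset.sum_range_succ _ 2, Finset.sum_range_succ _ 1, Finset.sum_range_one]
  simp only [S, sub_sub] at h3 h7 ⊢
  norm_num [v, eps, Nat.choose] at h3 h7 ⊢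
  omega

end Pool.Agent.Results.MP_d4d41d_nt.Pos
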